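import Pool.Agent.L7h88.BW.Stm
import Pool.Agent.Q298.KS.Base
import Pool.Agent.H373R2.T7.SupMu

/-! Project BW (helper88), parts LOWM (helper18). -/

set_option autoImplicit false

namespace Pool.Agent.L7h18.BW

open Finset Filter MeasureTheory
open Pool.Agent.L7h88.BW
open Pool.Agent.Q236.CR (nt)

theorem nt_exp (t : ℝ) (n : ℕ) (hn : 1 ≤ n) :
    nt t n = Complex.exp (Complex.I * ((-t * Real.log n : ℝ) : ℂ)) := by
  have hn0 : (n : ℂ) ≠ 0 := by
    have : n ≠ 0 := by omega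
    exact_mod_cast this
  unfold nt
  rw [Complex.cpow_def_of_ne_zero hn0]
  have hlog : Complex.log (n : ℂ) = ((Real.log n : ℝ) : ℂ) := (Complex.natCast_log).symm
  rw [hlog]
  congr 1
  push_cast
  ring

theorem norm_nt (t : ℝ) (n : ℕ) (hn : 1 ≤ n) : ‖nt t n‖ = 1 := by
  rw [nt_exp t n hn, mul_comm, Complex.norm_exp_ofReal_mul_I]

theorem nt_diff (t : ℝ) (n : ℕ) (hn : 1 ≤ n) : ‖nt t (n + 1) - nt t n‖ ≤ |t| * (1 / n) := by
  have h1 := Pool.Agent.Q298.KS.log_succ_sub n hn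
  have e : nt t (n + 1) - nt t n = nt t n * (Complex.exp (Complex.I *
      ((-t * (Real.log ((n + 1 : ℕ) : ℝ) - Real.log n) : ℝ) : ℂ)) - 1) := by
    rw [nt_exp t (n + 1) (by omega), nt_exp t n hn, mul_sub, mul_one, ← Complex.exp_add]
    congr 2
    push_cast
    ring
  rw [e, norm_mul, norm_nt t n hn, one_mul]
  refine (Real.norm_exp_I_mul_ofReal_sub_one_le (x := -t * (Real.log ((n + 1 : ℕ) : ℝ) - Real.log n))).trans ?_
  rw [Real.norm_eq_abs, abs_mul, abs_neg, abs_of_nonneg h1.1]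
  exact mul_le_mul_of_nonneg_left h1.2 (abs_nonneg _)

/-- Abel summation with complex weights -/
theorem abelc (g z : ℕ → ℂ) (a m : ℕ) (ham : a ≤ m) :
    ∑ n ∈ Ico a m, g n * z n = g m * ∑ n ∈ Ico a m, z n -
      ∑ n ∈ Ico a m, (g (n + 1) - g n) * ∑ j ∈ Ico a (n + 1), z j := by
  induction m, ham using Nat.le_induction with
  | base => simp
  | succ m hm ih =>
    rw [sum_Ico_succ_top hm, sum_Ico_succ_top hm, ih,
      sum_Ico_succ_top hm (fun n => (g (n + 1) - g n) * ∑ j ∈ Ico a (n + 1), z j),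
      sum_Ico_succ_top hm]
    ring

theorem abelc_le (g z : ℕ → ℂ) (B : ℝ) (a b : ℕ) (hab : a ≤ b)
    (hB : ∀ m, a ≤ m → m ≤ b → ‖∑ n ∈ Ico a m, z n‖ ≤ B) :
    ‖∑ n ∈ Ico a b, g n * z n‖ ≤ B * (‖g b‖ + ∑ n ∈ Ico a b, ‖g (n + 1) - g n‖) := by
  rw [abelc g z a b hab]
  refine (norm_sub_le _ _).trans ?_
  rw [mul_add]
  apply add_le_add
  · rw [norm_mul, mul_comm]
    exact mul_le_mul_of_nonneg_right (hB b hab le_rfl) (norm_nonneg _)
  · rw [mul_sum]
    refine (norm_sum_le _ _).trans (sum_le_sum fun n hn => ?_)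
    rw [mem_Ico] at hn
    rw [norm_mul, mul_comm]
    exact mul_le_mul_of_nonneg_right (hB (n + 1) (by omega) (by omega)) (norm_nonneg _)

theorem sum_inv (N : ℕ) (hN : 1 ≤ N) : ∑ n ∈ Ico 1 (N + 1), (1 : ℝ) / n ≤ 1 + Real.log N := by
  obtain ⟨m, rfl⟩ : ∃ m, N = 1 + m := ⟨N - 1, by omega⟩
  have h := Pool.Agent.Q298.KS.sum_inv_aux 1 le_rfl m
  rw [show 1 + m + 1 = 1 + 1 + m by ring]
  simpa using h

/-- prefix sums of `μ χ` -/
theorem pre (B U : ℕ) : ∃ N0 : ℕ, ∀ N : ℕ, N0 ≤ N → ∀ (q : ℕ) (_ : NeZero q) (χ : DirichletCharacter ℂ q),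
    (q : ℝ) ≤ Real.log N ^ B → ∀ y : ℕ, y ≤ N →
    ‖∑ n ∈ Icc 1 y, ((ArithmeticFunction.moebius n : ℤ) : ℂ) * χ (n : ZMod q)‖ ≤ q * (N / Real.log N ^ U) := by
  obtain ⟨N0, h⟩ := Pool.Agent.H373R2.T7.mu_ap B U
  refine ⟨N0, fun N hN q hq0 χ hq y hy => ?_⟩
  have hq1 : 1 ≤ q := Nat.one_le_iff_ne_zero.2 (NeZero.ne q)
  have e : ∑ n ∈ Icc 1 y, ((ArithmeticFunction.moebius n : ℤ) : ℂ) * χ (n : ZMod q) =
      ∑ c ∈ range q, χ (c : ZMod q) *
        ((∑ n ∈ (Icc 1 y).filter (fun n => n ≡ c [MOD q]), Pool.Agent.H373R2.T7.muR n : ℝ) : ℂ) := by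
    rw [← sum_fiberwise_of_maps_to (s := Icc 1 y) (t := range q) (g := fun n => n % q)
      (fun n _ => mem_range.2 (Nat.mod_lt n hq1))]
    refine sum_congr rfl fun c hc => ?_
    rw [mem_range] at hc
    have e2 : (Icc 1 y).filter (fun n => n % q = c) = (Icc 1 y).filter (fun n => n ≡ c [MOD q]) := by
      apply filter_congr
      intro n _
      unfold Nat.ModEq
      rw [Nat.mod_eq_of_lt hc]
    rw [e2, Complex.ofReal_sum, mul_sum]
    refine sum_congr rfl fun n hn => ?_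
    rw [mem_filter] at hn
    have e3 : (n : ZMod q) = (c : ZMod q) := (ZMod.natCast_eq_natCast_iff n c q).2 hn.2
    rw [e3, mul_comm]
    congr 1
  rw [e]
  refine (norm_sum_le _ _).trans ?_
  calc ∑ c ∈ range q, ‖χ (c : ZMod q) *
        ((∑ n ∈ (Icc 1 y).filter (fun n => n ≡ c [MOD q]), Pool.Agent.H373R2.T7.muR n : ℝ) : ℂ)‖
      ≤ ∑ c ∈ range q, (N : ℝ) / Real.log N ^ U := by
        refine sum_le_sum fun c _ => ?_
        rw [norm_mul, Complex.norm_real, Real.norm_eq_abs]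
        have h1 := χ.norm_le_one (c : ZMod q)
        have h2 := h N hN q hq1 hq c y hy
        calc _ ≤ 1 * (N / Real.log N ^ U) := mul_le_mul h1 h2 (abs_nonneg _) (by norm_num)
          _ = _ := one_mul _
    _ = _ := by rw [sum_const, card_range, nsmul_eq_mul]

theorem s_LOWM : S_LOWM := by
  intro B C₀ K
  obtain ⟨N0, h⟩ := pre B (B + C₀ + K + 1)
  set N1 := max N0 3 with hN1
  have hN13 : 3 ≤ N1 := le_max_right _ _
  have hl1 : 1 ≤ Real.log N1 := by
    have h1 : (3 : ℝ) ≤ N1 := by exact_mod_cast hN13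
    rw [Real.le_log_iff_exp_le (by linarith)]
    have := Real.exp_one_lt_d9
    linarith
  refine ⟨3 + Real.log N1 ^ K, fun N q hq0 χ τ hN hq hτ => ?_⟩
  have hN0 : (0 : ℝ) < N := by exact_mod_cast (by omega : 0 < N)
  have hN1' : (1 : ℝ) < N := by exact_mod_cast (by omega : 1 < N)
  have hlog : 0 < Real.log N := Real.log_pos hN1'
  rcases lt_or_ge N N1 with hs | hs
  · have t1 : ‖∑ n ∈ Icc 1 N, ((ArithmeticFunction.moebius n : ℤ) : ℂ) * (χ (n : ZMod q) * nt τ n)‖ ≤ N := by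
      refine (norm_sum_le _ _).trans ?_
      calc ∑ n ∈ Icc 1 N, ‖((ArithmeticFunction.moebius n : ℤ) : ℂ) * (χ (n : ZMod q) * nt τ n)‖
          ≤ ∑ n ∈ Icc 1 N, (1 : ℝ) := by
            refine sum_le_sum fun n hn => ?_
            rw [mem_Icc] at hn
            rw [norm_mul, norm_mul, norm_nt τ n hn.1, mul_one]
            have h1 := χ.norm_le_one (n : ZMod q)
            have h2 : ‖((ArithmeticFunction.moebius n : ℤ) : ℂ)‖ ≤ 1 := by
              rw [Complex.norm_intCast]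
              exact_mod_cast ArithmeticFunction.abs_moebius_le_one
            calc _ ≤ (1 : ℝ) * 1 := mul_le_mul h2 h1 (norm_nonneg _) (by norm_num)
              _ = 1 := one_mul _
        _ = N := by simp
    refine t1.trans ?_
    rw [le_div_iff₀ (pow_pos hlog K), mul_comm]
    apply mul_le_mul_of_nonneg_right _ hN0.le
    have h2 : Real.log N ≤ Real.log N1 := Real.log_le_log hN0 (by exact_mod_cast hs.le)
    have h3 : Real.log N ^ K ≤ Real.log N1 ^ K := pow_le_pow_left₀ hlog.le h2 K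
    linarith
  · have hl : 1 ≤ Real.log N := hl1.trans (Real.log_le_log (by
      have : (3 : ℝ) ≤ N1 := by exact_mod_cast hN13
      linarith) (by exact_mod_cast hs))
    set L := Real.log N with hL
    have hp := h N ((le_max_left _ _).trans hs) q hq0 χ hq
    have e1 : ∑ n ∈ Icc 1 N, ((ArithmeticFunction.moebius n : ℤ) : ℂ) * (χ (n : ZMod q) * nt τ n) =
        ∑ n ∈ Ico 1 (N + 1), nt τ n * (((ArithmeticFunction.moebius n : ℤ) : ℂ) * χ (n : ZMod q)) := by
      have : Icc 1 N = Ico 1 (N + 1) := by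
        ext n
        rw [mem_Icc, mem_Ico]
        omega
      rw [this]
      exact sum_congr rfl fun n _ => by ring
    rw [e1]
    have h1 := abelc_le (nt τ) (fun n => ((ArithmeticFunction.moebius n : ℤ) : ℂ) * χ (n : ZMod q))
      (q * (N / L ^ (B + C₀ + K + 1))) 1 (N + 1) (by omega) (by
        intro m hm1 hm2
        have : Ico 1 m = Icc 1 (m - 1) := by
          ext n
          rw [mem_Icc, mem_Ico]
          omega
        rw [this]
        exact hp (m - 1) (by omega))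
    refine h1.trans ?_
    rw [norm_nt τ (N + 1) (by omega)]
    have h2 : ∑ n ∈ Ico 1 (N + 1), ‖nt τ (n + 1) - nt τ n‖ ≤ L ^ C₀ * (1 + L) := by
      calc _ ≤ ∑ n ∈ Ico 1 (N + 1), |τ| * ((1 : ℝ) / n) :=
            sum_le_sum fun n hn => nt_diff τ n (mem_Ico.1 hn).1
        _ = |τ| * ∑ n ∈ Ico 1 (N + 1), (1 : ℝ) / n := by rw [mul_sum]
        _ ≤ L ^ C₀ * (1 + L) := mul_le_mul hτ (sum_inv N (by omega))
            (sum_nonneg fun n _ => by positivity) (by positivity)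
    have h3 : 1 + ∑ n ∈ Ico 1 (N + 1), ‖nt τ (n + 1) - nt τ n‖ ≤ 3 * L ^ (C₀ + 1) := by
      have h4 : (1 : ℝ) ≤ L ^ (C₀ + 1) := one_le_pow₀ hl
      have h5 : L ^ C₀ * (1 + L) ≤ 2 * L ^ (C₀ + 1) := by
        rw [pow_succ]
        have : 0 < L ^ C₀ := by positivity
        nlinarith
      linarith
    calc (q : ℝ) * (N / L ^ (B + C₀ + K + 1)) * (1 + ∑ n ∈ Ico 1 (N + 1), ‖nt τ (n + 1) - nt τ n‖)
        ≤ L ^ B * (N / L ^ (B + C₀ + K + 1)) * (3 * L ^ (C₀ + 1)) := by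
          apply mul_le_mul _ h3 (by positivity) (by positivity)
          exact mul_le_mul_of_nonneg_right hq (by positivity)
      _ = 3 * N / L ^ K := by
          rw [show B + C₀ + K + 1 = B + (C₀ + 1) + K by ring, pow_add, pow_add]
          field_simp
      _ ≤ _ := by
          gcongr
          have : 0 ≤ Real.log N1 ^ K := by positivity
          linarith

end Pool.Agent.L7h18.BW
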