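import Pool.Agent.L7h18.BW.Lowm
import Pool.Agent.Q298.KS.Mb

/-! Project BW (helper88), part MBX (helper18). -/

set_option autoImplicit false

namespace Pool.Agent.L7h18.BW

open Finset Filter MeasureTheory
open Pool.Agent.H376R2.MR (ch DP FK w)
open Pool.Agent.Q240.KS (cf sp ty ed DY zY pic)
open Pool.Agent.Q298.KS
open Pool.Agent.L7h88.BW
open Pool.Agent.Q236.CR (nt)

theorem nt_ch (k : ℤ) (n : ℕ) (hn : 1 ≤ n) : nt (k : ℝ) n = ch k (Real.log n) := by
  unfold nt
  exact cpow_ch k n hn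

theorem PX_eq {q : ℕ} (χ : DirichletCharacter ℂ q) (z : ℕ) (t : Fin 3) (d : ℕ) (k : ℤ) :
    PX χ z t d k = ∑ n ∈ Ico (lo d) (hi d), ((cf z t d n : ℝ) : ℂ) * (χ (n : ZMod q) * ch k (Real.log n)) := by
  unfold PX
  rw [sum_sp_eq d (fun n => ((cf z t d n : ℝ) : ℂ) * χ (n : ZMod q) * ch k (Real.log n)) (by
    intro n h1 h
    simp [cf_lo (z := z) (t := t) h1 h])]
  exact sum_congr rfl fun n _ => by ring

theorem norm_PX0_le {q : ℕ} (χ : DirichletCharacter ℂ q) (z : ℕ) (d : ℕ) (k : ℤ) : ‖PX χ z 0 d k‖ ≤ 2 := by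
  rw [PX_eq]
  refine (norm_sum_le _ _).trans ?_
  calc ∑ n ∈ Ico (lo d) (hi d), ‖((cf z 0 d n : ℝ) : ℂ) * (χ (n : ZMod q) * ch k (Real.log n))‖
      ≤ ∑ n ∈ Ico (lo d) (hi d), (1 : ℝ) / n := by
        refine sum_le_sum fun n hn => ?_
        rw [mem_Ico] at hn
        have hn1 : 1 ≤ n := (one_le_lo d).trans hn.1
        have hn0 : (0 : ℝ) < n := by exact_mod_cast hn1
        rw [norm_mul, norm_mul, Pool.Agent.Q298.KS.norm_ch, mul_one, Complex.norm_real, Real.norm_eq_abs]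
        have h1 := χ.norm_le_one (n : ZMod q)
        have h2 : |cf z 0 d n| ≤ 1 / n := by
          unfold cf
          rw [if_pos rfl, abs_div, abs_of_pos hn0]
          apply div_le_div_of_nonneg_right _ hn0.le
          rw [abs_mul, abs_of_nonneg (w_nonneg _)]
          have h3 := w_le_one (20 * Real.log n - d)
          have h4 : |if n ≤ z then ((ArithmeticFunction.moebius n : ℤ) : ℝ) else 0| ≤ 1 := by
            split_ifs
            · exact_mod_cast ArithmeticFunction.abs_moebius_le_one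
            · simp
          calc _ ≤ (1 : ℝ) * 1 := mul_le_mul h4 h3 (w_nonneg _) (by norm_num)
            _ = 1 := one_mul _
        calc _ ≤ (1 : ℝ) / n * 1 := mul_le_mul h2 h1 (norm_nonneg _) (by positivity)
          _ = _ := mul_one _
    _ ≤ 1 + 1 / 10 := sum_inv_window d
    _ ≤ 2 := by norm_num

/-- a Moebius factor from the partial sums of `μ(n) χ(n) n^{-ik}`, `n ≤ z` -/
theorem PX_le_of_part0 {q : ℕ} (χ : DirichletCharacter ℂ q) (z : ℕ) (d : ℕ) (k : ℤ) (B : ℝ) (hB0 : 0 ≤ B)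
    (hB : ∀ m, lo d ≤ m → m ≤ hi d → ‖∑ n ∈ Ico (lo d) m,
      (((if n ≤ z then ((ArithmeticFunction.moebius n : ℤ) : ℝ) else 0 : ℝ)) : ℂ) *
        (χ (n : ZMod q) * ch k (Real.log n))‖ ≤ B) :
    ‖PX χ z 0 d k‖ ≤ 100 * B * Real.exp (-((d : ℝ) / 20)) := by
  have h0 : (0 : ℝ) ≤ d := Nat.cast_nonneg d
  rw [PX_eq]
  have e : ∑ n ∈ Ico (lo d) (hi d), ((cf z 0 d n : ℝ) : ℂ) * (χ (n : ZMod q) * ch k (Real.log n)) =
      ∑ n ∈ Ico (lo d) (hi d), (((fun n : ℕ => hw d n / (n : ℝ)) n : ℝ) : ℂ) *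
        (fun n : ℕ => (((if n ≤ z then ((ArithmeticFunction.moebius n : ℤ) : ℝ) else 0 : ℝ)) : ℂ) *
        (χ (n : ZMod q) * ch k (Real.log n))) n := by
    refine sum_congr rfl fun n _ => ?_
    unfold cf hw
    rw [if_pos rfl]
    push_cast
    ring
  rw [e]
  have h1 := abel_window d (fun n : ℕ => hw d n / (n : ℝ))
    ((20 + 1) * Real.exp (-(((d : ℝ) - 1) / 20))) B _ hB0 (by positivity)
    (by simp only [hw_hi, zero_div])
    (fun n hn1 hn2 => var_div d (hw d) 20 1 (by norm_num) (by norm_num)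
      (fun n h1 h2 => by rw [abs_of_nonneg (hw_nonneg d n)]; exact hw_le_one d n)
      (fun n h1 h2 => hw_var d n ((one_le_lo d).trans h1)) n hn1 hn2) hB
  refine h1.trans ?_
  have h2 := exp_lo d
  have h3 : 0 < Real.exp (-((d : ℝ) / 20)) := Real.exp_pos _
  calc 2 * B * ((20 + 1) * Real.exp (-(((d : ℝ) - 1) / 20)))
      ≤ 2 * B * ((20 + 1) * (2 * Real.exp (-((d : ℝ) / 20)))) := by gcongr
    _ = 84 * (B * Real.exp (-((d : ℝ) / 20))) := by ring
    _ ≤ 100 * (B * Real.exp (-((d : ℝ) / 20))) := by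
        have : 0 ≤ B * Real.exp (-((d : ℝ) / 20)) := by positivity
        linarith
    _ = _ := by ring

/-- initial sums of the twisted Moebius function -/
noncomputable def mux {q : ℕ} (χ : DirichletCharacter ℂ q) (k : ℤ) (N : ℕ) : ℂ :=
  ∑ n ∈ Icc 1 N, ((ArithmeticFunction.moebius n : ℤ) : ℂ) * (χ (n : ZMod q) * ch k (Real.log n))

theorem part_mux {q : ℕ} (χ : DirichletCharacter ℂ q) (k : ℤ) (z a m : ℕ) (ha : 1 ≤ a) (ham : a ≤ m) :
    ∑ n ∈ Ico a m, (((if n ≤ z then ((ArithmeticFunction.moebius n : ℤ) : ℝ) else 0 : ℝ)) : ℂ) *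
        (χ (n : ZMod q) * ch k (Real.log n)) =
      if a ≤ z + 1 then mux χ k (min m (z + 1) - 1) - mux χ k (a - 1) else 0 := by
  have h1 : ∀ n, (((if n ≤ z then ((ArithmeticFunction.moebius n : ℤ) : ℝ) else 0 : ℝ)) : ℂ) *
        (χ (n : ZMod q) * ch k (Real.log n)) = if n ≤ z then ((ArithmeticFunction.moebius n : ℤ) : ℂ) *
          (χ (n : ZMod q) * ch k (Real.log n)) else 0 := by
    intro n
    split_ifs
    · push_cast
      rfl
    · simp
  rw [sum_congr rfl (fun n _ => h1 n), ← sum_filter]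
  have h2 : (Ico a m).filter (fun n => n ≤ z) = Ico a (min m (z + 1)) := by
    ext n
    simp only [mem_filter, mem_Ico, lt_min_iff]
    omega
  rw [h2]
  split_ifs with h3
  · have h4 : mux χ k (min m (z + 1) - 1) = ∑ n ∈ Ico 1 (min m (z + 1)),
        ((ArithmeticFunction.moebius n : ℤ) : ℂ) * (χ (n : ZMod q) * ch k (Real.log n)) := by
      unfold mux
      apply sum_congr _ (fun _ _ => rfl)
      ext n
      rw [mem_Icc, mem_Ico]
      omega
    have h5 : mux χ k (a - 1) = ∑ n ∈ Ico 1 a,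
        ((ArithmeticFunction.moebius n : ℤ) : ℂ) * (χ (n : ZMod q) * ch k (Real.log n)) := by
      unfold mux
      apply sum_congr _ (fun _ _ => rfl)
      ext n
      rw [mem_Icc, mem_Ico]
      omega
    rw [h4, h5, eq_sub_iff_add_eq, add_comm]
    exact sum_Ico_consecutive _ ha (le_min ham h3)
  · rw [Ico_eq_empty_of_le (by omega), sum_empty]

/-- all heights -/
theorem mu_all (hM : Pool.Agent.Q236.CR.S_MOC) (hL : S_LOWM) (A B K : ℕ) : ∃ C : ℝ, 0 ≤ C ∧
    ∀ (N : ℕ) (q : ℕ) (_ : NeZero q) (χ : DirichletCharacter ℂ q) (k : ℤ), 2 ≤ N →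
    (q : ℝ) ≤ Real.log N ^ B → |(k : ℝ)| ≤ (N : ℝ) ^ A → ‖mux χ k N‖ ≤ C * N / (Real.log N) ^ K := by
  obtain ⟨C₀, C1, h1⟩ := hM A B K
  obtain ⟨C2, h2⟩ := hL B C₀ K
  refine ⟨|C1| + |C2|, by positivity, fun N q hq0 χ k hN hq hk => ?_⟩
  have e : mux χ k N = ∑ n ∈ Icc 1 N, ((ArithmeticFunction.moebius n : ℤ) : ℂ) * (χ (n : ZMod q) * nt (k : ℝ) n) := by
    unfold mux
    refine sum_congr rfl fun n hn => ?_
    rw [nt_ch k n (mem_Icc.1 hn).1]
  rw [e]
  have hN1' : (1 : ℝ) < N := by exact_mod_cast (by omega : 1 < N)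
  have hlog : 0 < Real.log N := Real.log_pos hN1'
  rcases le_total |(k : ℝ)| (Real.log N ^ C₀) with h | h
  · refine (h2 N q hq0 χ k hN hq h).trans ?_
    gcongr
    have := le_abs_self C2
    have := abs_nonneg C1
    linarith
  · refine (h1 N q hq0 χ k hN hq h hk).trans ?_
    gcongr
    have := le_abs_self C1
    have := abs_nonneg C2
    linarith

theorem s_MBX (hM : Pool.Agent.Q236.CR.S_MOC) (hL : S_LOWM) : S_MBX := by
  intro A B B0
  obtain ⟨C, hC0, h⟩ := mu_all hM hL (2 * A) (B + 1) B0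
  set D : ℕ := 40 ^ (B + 1) * 2 ^ B with hD
  have hD40 : 40 ≤ D := by
    rw [hD, pow_succ]
    have h1 : 1 ≤ 40 ^ B := Nat.one_le_pow _ _ (by norm_num)
    have h2 : 1 ≤ 2 ^ B := Nat.one_le_pow _ _ (by norm_num)
    nlinarith [Nat.mul_le_mul h1 h2]
  refine ⟨400 * C * 80 ^ B0 + 2 * (1 + (D : ℝ)) ^ B0, ?_⟩
  intro q hq0 χ z d k hq hk
  have hd : (0 : ℝ) ≤ d := Nat.cast_nonneg d
  have hP : (0 : ℝ) < (1 + (d : ℝ)) ^ B0 := by positivity
  rw [le_div_iff₀ hP]
  rcases lt_or_ge d D with hd2 | hd2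
  · have h1 := norm_PX0_le χ z d k
    have h2 : (1 + (d : ℝ)) ^ B0 ≤ (1 + (D : ℝ)) ^ B0 := by
      apply pow_le_pow_left₀ (by positivity)
      have : (d : ℝ) ≤ D := by exact_mod_cast hd2.le
      linarith
    have h3 : (0 : ℝ) ≤ 400 * C * 80 ^ B0 := by positivity
    calc ‖PX χ z 0 d k‖ * (1 + (d : ℝ)) ^ B0 ≤ 2 * (1 + (D : ℝ)) ^ B0 :=
          mul_le_mul h1 h2 hP.le (by norm_num)
      _ ≤ _ := by linarith
  · have hdD : (D : ℝ) ≤ d := by exact_mod_cast hd2
    have hd2' : (40 : ℝ) ≤ d := by exact_mod_cast hD40.trans hd2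
    have hqB : (1 + (d : ℝ)) ^ B ≤ ((d : ℝ) / 40) ^ (B + 1) := by
      have h1 : (1 + (d : ℝ)) ^ B ≤ (2 * (d : ℝ)) ^ B := pow_le_pow_left₀ (by positivity) (by linarith) B
      refine h1.trans ?_
      rw [div_pow, le_div_iff₀ (by positivity), mul_pow, pow_succ (d : ℝ) B]
      have h2 : (D : ℝ) = 40 ^ (B + 1) * 2 ^ B := by rw [hD]; push_cast; rfl
      rw [h2] at hdD
      have h3 : (0 : ℝ) ≤ (d : ℝ) ^ B := by positivity
      calc (2 : ℝ) ^ B * (d : ℝ) ^ B * 40 ^ (B + 1) = (d : ℝ) ^ B * (40 ^ (B + 1) * 2 ^ B) := by ring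
        _ ≤ (d : ℝ) ^ B * d := mul_le_mul_of_nonneg_left hdD h3
    set x := Real.exp ((d : ℝ) / 40) with hx
    have hx1 : 2.7 ≤ x := by
      have h1 : Real.exp 1 ≤ x := Real.exp_le_exp.2 (by linarith)
      have h2 := Real.exp_one_gt_d9
      linarith
    have hx2 : Real.exp ((d : ℝ) / 20) = x ^ 2 := by
      rw [hx, ← Real.exp_nat_mul]
      congr 1
      push_cast
      ring
    have hlo : x ≤ ((lo d - 1 : ℕ) : ℝ) := by
      rw [Nat.cast_sub (one_le_lo d)]
      have h1 := le_lo d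
      have h2 : Real.exp (((d : ℝ) - 1) / 20) = x ^ 2 * Real.exp (-(1 / 20)) := by
        rw [← hx2, ← Real.exp_add]
        congr 1
        ring
      have h3 : (19 / 20 : ℝ) ≤ Real.exp (-(1 / 20)) := by
        have := Real.add_one_le_exp (-(1 / 20 : ℝ))
        linarith
      have h4 : x ^ 2 * (19 / 20) ≤ x ^ 2 * Real.exp (-(1 / 20)) := by gcongr
      push_cast
      nlinarith
    -- initial sums
    have hS : ∀ N : ℕ, lo d - 1 ≤ N → N < hi d → ‖mux χ k N‖ ≤
        2 * C * 80 ^ B0 * x ^ 2 / (1 + (d : ℝ)) ^ B0 := by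
      intro N hN1 hN2
      have hN1' : x ≤ (N : ℝ) := hlo.trans (by exact_mod_cast hN1)
      have hN0 : (0 : ℝ) < N := by linarith
      have hN2' : 2 ≤ N := by
        have : (2 : ℝ) ≤ N := by linarith
        exact_mod_cast this
      have hpow : |(k : ℝ)| ≤ (N : ℝ) ^ (2 * A) := by
        refine hk.trans ?_
        calc Real.exp (A * d / 20) = x ^ (2 * A) := by
              rw [hx, ← Real.exp_nat_mul]
              congr 1
              push_cast
              ring
          _ ≤ _ := pow_le_pow_left₀ (by linarith) hN1' _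
      have hlog : (d : ℝ) / 40 ≤ Real.log N := by
        rw [Real.le_log_iff_exp_le hN0]
        exact hN1'
      have hq' : (q : ℝ) ≤ Real.log N ^ (B + 1) :=
        hq.trans (hqB.trans (pow_le_pow_left₀ (by positivity) hlog _))
      have h1 := h N q hq0 χ k hN2' hq' hpow
      refine h1.trans ?_
      have hlog0 : (0 : ℝ) < Real.log N := by linarith
      have h3 : (1 + (d : ℝ)) / 80 ≤ Real.log N := by linarith
      have h4 : ((1 + (d : ℝ)) / 80) ^ B0 ≤ Real.log N ^ B0 := pow_le_pow_left₀ (by positivity) h3 B0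
      have h5 : (N : ℝ) ≤ 2 * x ^ 2 := by
        have h6 := le_of_lt_hi hN2
        have h7 : Real.exp (((d : ℝ) + 1) / 20) = Real.exp (1 / 20) * x ^ 2 := by
          rw [← hx2, ← Real.exp_add]
          congr 1
          ring
        have h8 := exp_small (x := 1 / 20) (by norm_num)
        rw [h7] at h6
        refine h6.trans ?_
        gcongr
      calc C * N / Real.log N ^ B0 ≤ C * (2 * x ^ 2) / ((1 + (d : ℝ)) / 80) ^ B0 := by
            apply div_le_div₀ (by positivity) _ (by positivity) h4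
            gcongr
        _ = _ := by
            rw [div_pow]
            field_simp
    set T := 2 * C * 80 ^ B0 * x ^ 2 / (1 + (d : ℝ)) ^ B0 with hT
    have hT0 : 0 ≤ T := by positivity
    have hpart : ∀ m, lo d ≤ m → m ≤ hi d → ‖∑ n ∈ Ico (lo d) m,
      (((if n ≤ z then ((ArithmeticFunction.moebius n : ℤ) : ℝ) else 0 : ℝ)) : ℂ) *
        (χ (n : ZMod q) * ch k (Real.log n))‖ ≤ 2 * T := by
      intro m hm1 hm2
      have hl := one_le_lo d
      have hlh := lo_le_hi d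
      rw [part_mux χ k z (lo d) m (one_le_lo d) hm1]
      split_ifs with h3
      · refine (norm_sub_le _ _).trans ?_
        have h1 := hS (min m (z + 1) - 1) (by
          have := le_min hm1 h3
          omega) (by
          have : min m (z + 1) ≤ m := min_le_left _ _
          have := le_min hm1 h3
          omega)
        have h2 := hS (lo d - 1) le_rfl (by omega)
        linarith
      · rw [norm_zero]
        positivity
    have h1 := PX_le_of_part0 χ z d k (2 * T) (by positivity) hpart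
    have h2 : Real.exp (-((d : ℝ) / 20)) = 1 / x ^ 2 := by
      rw [Real.exp_neg, hx2, one_div]
    rw [h2] at h1
    have hx0 : 0 < x := by linarith
    calc ‖PX χ z 0 d k‖ * (1 + (d : ℝ)) ^ B0 ≤ 100 * (2 * T) * (1 / x ^ 2) * (1 + (d : ℝ)) ^ B0 :=
          mul_le_mul_of_nonneg_right h1 hP.le
      _ = 400 * C * 80 ^ B0 := by
          rw [hT]
          field_simp
          ring
      _ ≤ _ := by
          have : (0 : ℝ) ≤ 2 * (1 + (D : ℝ)) ^ B0 := by positivity
          linarith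

end Pool.Agent.L7h18.BW
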