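import Pool.Agent.L7h88.BW.Stm
import Pool.Agent.Q278.KT.Fin

/-! Project BW (helper88), part POOR (helper18). -/

set_option autoImplicit false

namespace Pool.Agent.L7h18.BW

open Finset Filter MeasureTheory
open Pool.Agent.Q240.KS (cf sp ty ed DY zY pic)
open Pool.Agent.L7h88.BW

theorem th_ge_pic (u κ h : ℝ) (hu : 0 ≤ u) (hκ : 0 ≤ κ) (hh : h ≤ κ * Real.exp u) :
    (pic (Real.exp u) h : ℝ) * u ≤ th u κ 1 0 := by
  unfold pic th
  have hsub : (Ioc ⌊Real.exp u⌋₊ ⌊Real.exp u + h⌋₊).filter Nat.Prime ⊆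
      (Icc 1 ⌊Real.exp (u + κ)⌋₊).filter (fun p : ℕ => p.Prime ∧ u < Real.log p ∧ p ≡ 0 [MOD 1]) := by
    intro p hp
    rw [mem_filter, mem_Ioc] at hp
    have hp0 : (0 : ℝ) < p := by exact_mod_cast hp.2.pos
    rw [mem_filter, mem_Icc]
    refine ⟨⟨hp.2.one_lt.le, ?_⟩, hp.2, ?_, Nat.modEq_one⟩
    · refine hp.1.2.trans (Nat.floor_le_floor ?_)
      rw [Real.exp_add]
      have h1 := Real.add_one_le_exp κ
      have h2 := Real.exp_pos u
      nlinarith
    · rw [Real.lt_log_iff_exp_lt hp0]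
      exact (Nat.floor_lt (Real.exp_pos u).le).1 hp.1.1
  calc _ = ∑ p ∈ (Ioc ⌊Real.exp u⌋₊ ⌊Real.exp u + h⌋₊).filter Nat.Prime, u := by
        rw [sum_const, nsmul_eq_mul]
    _ ≤ ∑ p ∈ (Ioc ⌊Real.exp u⌋₊ ⌊Real.exp u + h⌋₊).filter Nat.Prime, Real.log p := by
        refine sum_le_sum fun p hp => ?_
        have := hsub hp
        rw [mem_filter] at this
        exact this.2.2.1.le
    _ ≤ _ := by
        refine sum_le_sum_of_subset_of_nonneg hsub fun p hp _ => ?_
        exact Real.log_natCast_nonneg p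

theorem s_POOR : S_POOR := by
  obtain ⟨c, η, Y₀, hc, hη, h⟩ := Pool.Agent.Q278.KT.mainp_half
  refine ⟨c / 4, η / 2, max Y₀ (1 / η + 1), by positivity, by positivity, ?_⟩
  intro Y hY κ t hκ1 hκ2 ht0 ht1
  have hY0 : Y₀ ≤ Y := (le_max_left _ _).trans hY
  have hY1 : 1 / η + 1 ≤ Y := (le_max_right _ _).trans hY
  have hη1 : 0 < 1 / η := by positivity
  have hY2 : 1 ≤ Y := by linarith
  have hκ0 : 0 < κ := (Real.exp_pos _).trans_le hκ1
  set hh : ℝ := κ * Real.exp (Y - 1 / 4) with hhh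
  have hh0 : 0 < hh := by positivity
  -- the points
  have hu : ∀ j ∈ range (⌊1 / (2 * κ)⌋₊ - 1), Y - 1 / 4 ≤ Y - 1 / 4 + t + j * κ ∧
      Y - 1 / 4 + t + j * κ ≤ Y + 1 / 4 := by
    intro j hj
    rw [mem_range] at hj
    have h1 : (0 : ℝ) ≤ j * κ := by positivity
    refine ⟨by linarith, ?_⟩
    have h2 : ((j + 2 : ℕ) : ℝ) ≤ 1 / (2 * κ) := by
      have h3 : j + 2 ≤ ⌊1 / (2 * κ)⌋₊ := by omega
      exact (Nat.cast_le.2 h3).trans (Nat.floor_le (by positivity))
    rw [le_div_iff₀ (by positivity)] at h2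
    push_cast at h2
    nlinarith
  set P := (range (⌊1 / (2 * κ)⌋₊ - 1)).filter
    (fun j : ℕ => th (Y - 1 / 4 + t + j * κ) κ 1 0 < c / 4 * κ * Real.exp Y) with hP
  set U := P.image (fun j : ℕ => Real.exp (Y - 1 / 4 + t + j * κ)) with hU
  have hinj : Set.InjOn (fun j : ℕ => Real.exp (Y - 1 / 4 + t + j * κ)) P := by
    intro i _ j _ hij
    have h1 := Real.exp_injective hij
    have h2 : (i : ℝ) * κ = j * κ := by linarith
    have h3 := mul_right_cancel₀ hκ0.ne' h2
    exact_mod_cast h3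
  have hcard : U.card = P.card := card_image_of_injOn hinj
  have hsep : ∀ i j : ℕ, i < j → Y - 1 / 4 ≤ Y - 1 / 4 + t + i * κ →
      hh ≤ |Real.exp (Y - 1 / 4 + t + i * κ) - Real.exp (Y - 1 / 4 + t + j * κ)| := by
    intro i j hij hi
    have h1 : (i : ℝ) + 1 ≤ j := by exact_mod_cast hij
    set a := Y - 1 / 4 + t + i * κ with ha
    set b := Y - 1 / 4 + t + j * κ with hb
    have hab : κ ≤ b - a := by rw [ha, hb]; nlinarith
    have h2 := Real.add_one_le_exp (b - a)
    have h3 : Real.exp b = Real.exp a * Real.exp (b - a) := by rw [← Real.exp_add]; congr 1; ring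
    have h4 : Real.exp (Y - 1 / 4) ≤ Real.exp a := Real.exp_le_exp.2 hi
    have h5 := Real.exp_pos a
    have h6 : hh ≤ Real.exp b - Real.exp a := by
      rw [h3, hhh]
      have h7 : Real.exp a * (κ + 1) ≤ Real.exp a * Real.exp (b - a) :=
        mul_le_mul_of_nonneg_left (by linarith) h5.le
      nlinarith
    rw [abs_sub_comm]
    exact h6.trans (le_abs_self _)
  have key := h Y hY0 hh (by
    have h1 : Real.exp (-((1 / 2 + η / 2) * Y)) * Real.exp (Y - 1 / 4) ≤ hh :=
      mul_le_mul_of_nonneg_right hκ1 (Real.exp_pos _).le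
    refine le_trans ?_ h1
    rw [← Real.exp_add]
    apply Real.exp_le_exp.2
    have h2 : 1 ≤ η * Y := by
      have h3 : η * (1 / η) = 1 := by field_simp
      nlinarith
    linarith) (by
    have h1 : hh ≤ Real.exp (-(Y / 4)) * Real.exp (Y - 1 / 4) :=
      mul_le_mul_of_nonneg_right hκ2 (Real.exp_pos _).le
    refine h1.trans ?_
    rw [← Real.exp_add]
    apply Real.exp_le_exp.2
    linarith) U (by
    intro y hy
    rw [hU, mem_image] at hy
    obtain ⟨j, hj, rfl⟩ := hy
    rw [hP, mem_filter] at hj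
    have h1 := hu j hj.1
    refine ⟨Real.exp_pos _, ?_, ?_⟩
    · rw [Real.log_exp, abs_le]
      constructor <;> linarith [h1.1, h1.2]
    · set u := Y - 1 / 4 + t + j * κ with hu'
      have h2 := th_ge_pic u κ hh (by linarith [h1.1]) hκ0.le (by
        rw [hhh]
        exact mul_le_mul_of_nonneg_left (Real.exp_le_exp.2 h1.1) hκ0.le)
      have h3 : (pic (Real.exp u) hh : ℝ) * (Y / 2) ≤ (pic (Real.exp u) hh : ℝ) * u :=
        mul_le_mul_of_nonneg_left (by linarith [h1.1]) (Nat.cast_nonneg _)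
      have h4 : (pic (Real.exp u) hh : ℝ) * (Y / 2) < c / 4 * κ * Real.exp Y := by linarith [hj.2]
      have h5 : Real.exp Y ≤ 2 * Real.exp (Y - 1 / 4) := by
        have h6 : Real.exp Y = Real.exp (1 / 4) * Real.exp (Y - 1 / 4) := by
          rw [← Real.exp_add]; congr 1; ring
        have h7 : Real.exp (1 / 4) ≤ 2 := by
          calc Real.exp (1 / 4) ≤ Real.exp (Real.log 2) := by
                apply Real.exp_le_exp.2
                have := Real.log_two_gt_d9
                linarith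
            _ = 2 := Real.exp_log (by norm_num)
        rw [h6]
        exact mul_le_mul_of_nonneg_right h7 (Real.exp_pos _).le
      rw [lt_div_iff₀ (by linarith)]
      have h8 : c / 4 * κ * Real.exp Y ≤ c / 4 * κ * (2 * Real.exp (Y - 1 / 4)) :=
        mul_le_mul_of_nonneg_left h5 (by positivity)
      have h9 : c / 4 * κ * (2 * Real.exp (Y - 1 / 4)) = c * hh / 2 := by rw [hhh]; ring
      nlinarith) (by
    intro y hy y' hy' hne
    rw [hU, mem_image] at hy hy'
    obtain ⟨i, hi, rfl⟩ := hy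
    obtain ⟨j, hj, rfl⟩ := hy'
    rw [hP, mem_filter] at hi hj
    rcases lt_trichotomy i j with h1 | h1 | h1
    · exact hsep i j h1 (hu i hi.1).1
    · exact absurd (by rw [h1]) hne
    · rw [abs_sub_comm]
      exact hsep j i h1 (hu j hj.1).1)
  rw [hcard] at key
  refine key.trans (Real.exp_le_exp.2 ?_)
  nlinarith

end Pool.Agent.L7h18.BW
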